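import Mathlib.RingTheory.MvPowerSeries.Equiv
import Mathlib.RingTheory.MvPowerSeries.NoZeroDivisors
import Mathlib.RingTheory.MvPowerSeries.Inverse
import Mathlib.RingTheory.PowerSeries.WeierstrassPreparation
import Mathlib.RingTheory.Polynomial.UniqueFactorization
import Mathlib.Algebra.MvPolynomial.Funext
import Mathlib.RingTheory.Filtration

/-!
Module Ufd: the ring of power series in finitely many variables over an infinite field is factorial and complete.
-/

namespace Pool.Agent.DTZ

open MvPowerSeries

variable {K : Type*} [Field K] {n : ℕ}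

/-- The maximal ideal consists of the series without constant term. -/
theorem Ufd_mem_max (f : MvPowerSeries (Fin n) K) :
    f ∈ IsLocalRing.maximalIdeal (MvPowerSeries (Fin n) K) ↔ constantCoeff f = 0 := by
  rw [IsLocalRing.mem_maximalIdeal, mem_nonunits_iff, MvPowerSeries.isUnit_iff_constantCoeff, isUnit_iff_ne_zero,
    not_not]

/-- The series with given coefficients. -/
def Ufd_mk (u : (Fin n →₀ ℕ) → K) : MvPowerSeries (Fin n) K := u

theorem Ufd_coeff_mk (u : (Fin n →₀ ℕ) → K) (d : Fin n →₀ ℕ) : coeff d (Ufd_mk u) = u d := rfl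

private theorem Ufd_coeff_X_mul (i : Fin n) (d : Fin n →₀ ℕ) (g : MvPowerSeries (Fin n) K) :
    coeff d (X i * g) = if Finsupp.single i 1 ≤ d then coeff (d - Finsupp.single i 1) g else 0 := by
  rw [X, coeff_monomial_mul]
  simp

/-- Every series without terms of degree at most `k` is a combination of the variables; the coefficients of the
combination have no terms of degree smaller than `k`. -/
theorem Ufd_split (k : ℕ) (f : MvPowerSeries (Fin n) K) (hf : ∀ d : Fin n →₀ ℕ, d.degree < k + 1 → coeff d f = 0) :
    ∃ g : Fin n → MvPowerSeries (Fin n) K, f = ∑ i, X i * g i ∧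
      ∀ i, ∀ d : Fin n →₀ ℕ, d.degree < k → coeff d (g i) = 0 := by
  classical
  refine ⟨fun i => Ufd_mk (fun e => if (∀ j < i, e j = 0) then coeff (e + Finsupp.single i 1) f else 0), ?_, ?_⟩
  · ext d
    rw [map_sum]
    by_cases hd : d = 0
    · subst hd
      rw [hf 0 (by simp)]
      symm
      apply Finset.sum_eq_zero
      intro i _
      rw [coeff_zero_X_mul]
    · have hex : ∃ i, d i ≠ 0 := by
        by_contra h
        push Not at h
        exact hd (Finsupp.ext h)
      have hi0 : ∃ i0 : Fin n, d i0 ≠ 0 ∧ ∀ j < i0, d j = 0 := by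
        let s : Finset (Fin n) := Finset.univ.filter (fun i => d i ≠ 0)
        have hs : s.Nonempty := by
          obtain ⟨i, hi⟩ := hex
          exact ⟨i, by simp [s, hi]⟩
        refine ⟨s.min' hs, ?_, ?_⟩
        · have := s.min'_mem hs
          simpa [s] using this
        · intro j hj
          by_contra h
          have : s.min' hs ≤ j := s.min'_le j (by simp [s, h])
          exact absurd hj (not_lt.2 this)
      obtain ⟨i0, h0, hmin⟩ := hi0
      rw [Finset.sum_eq_single i0]
      · rw [Ufd_coeff_X_mul, if_pos]
        · rw [Ufd_coeff_mk, if_pos]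
          · rw [tsub_add_cancel_of_le]
            rw [Finsupp.single_le_iff]
            omega
          · intro j hj
            rw [Finsupp.tsub_apply, hmin j hj]
            simp
        · rw [Finsupp.single_le_iff]
          omega
      · intro i _ hi
        rw [Ufd_coeff_X_mul]
        split_ifs with h1
        · rw [Ufd_coeff_mk, if_neg]
          intro h2
          rw [Finsupp.single_le_iff] at h1
          have h3 : i0 < i := by
            rcases lt_trichotomy i0 i with h | h | h
            · exact h
            · exact absurd h.symm hi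
            · have := hmin i h
              omega
          have h4 := h2 i0 h3
          rw [Finsupp.tsub_apply, Finsupp.single_apply, if_neg (by exact hi)] at h4
          omega
        · rfl
      · intro h
        exact absurd (Finset.mem_univ _) h
  · intro i d hd
    rw [Ufd_coeff_mk]
    split_ifs
    · apply hf
      rw [map_add, Finsupp.degree_single]
      omega
    · rfl

/-- The powers of the maximal ideal. -/
theorem Ufd_mem_pow (k : ℕ) (f : MvPowerSeries (Fin n) K) :
    f ∈ IsLocalRing.maximalIdeal (MvPowerSeries (Fin n) K) ^ k ↔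
      ∀ d : Fin n →₀ ℕ, d.degree < k → coeff d f = 0 := by
  constructor
  · induction k generalizing f with
    | zero =>
      intro _ d hd
      omega
    | succ k ih =>
      intro hf
      rw [pow_succ'] at hf
      refine Submodule.mul_induction_on hf ?_ ?_
      · intro a ha b hb d hd
        rw [coeff_mul]
        apply Finset.sum_eq_zero
        rintro ⟨u, v⟩ huv
        rw [Finset.mem_antidiagonal] at huv
        simp only at huv ⊢
        by_cases hu : u = 0
        · subst hu
          rw [Ufd_mem_max] at ha
          rw [coeff_zero_eq_constantCoeff_apply, ha, zero_mul]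
        · have h1 : 1 ≤ u.degree := by
            rw [Nat.one_le_iff_ne_zero]
            intro h
            exact hu ((Finsupp.degree_eq_zero_iff u).1 h)
          have h2 : u.degree + v.degree = d.degree := by
            rw [← map_add, huv]
          rw [ih b hb v (by omega), mul_zero]
      · intro a b ha hb d hd
        rw [map_add, ha d hd, hb d hd, add_zero]
  · induction k generalizing f with
    | zero =>
      intro _
      simp
    | succ k ih =>
      intro hf
      obtain ⟨g, hg, hg2⟩ := Ufd_split k f hf
      rw [hg]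
      apply Ideal.sum_mem
      intro i _
      rw [pow_succ']
      apply Ideal.mul_mem_mul
      · rw [Ufd_mem_max]
        exact constantCoeff_X i
      · exact ih (g i) (hg2 i)

/-- The ring of power series is complete. -/
instance Ufd_complete : IsAdicComplete (IsLocalRing.maximalIdeal (MvPowerSeries (Fin n) K))
    (MvPowerSeries (Fin n) K) where
  haus' := by
    intro f hf
    ext d
    have h1 := hf (d.degree + 1)
    rw [SModEq.zero, smul_eq_mul, Ideal.mul_top, Ufd_mem_pow] at h1
    rw [h1 d (by omega)]
    simp
  prec' := by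
    intro f hf
    refine ⟨Ufd_mk (fun d => coeff d (f (d.degree + 1))), ?_⟩
    intro m
    rw [SModEq.sub_mem, smul_eq_mul, Ideal.mul_top, Ufd_mem_pow]
    intro d hd
    rw [map_sub, Ufd_coeff_mk]
    have h1 := hf (show d.degree + 1 ≤ m by omega)
    rw [SModEq.sub_mem, smul_eq_mul, Ideal.mul_top, Ufd_mem_pow] at h1
    have h2 := h1 d (by omega)
    rw [map_sub] at h2
    rw [sub_eq_zero] at h2 ⊢
    exact h2.symm

section Weier

open Polynomial

variable {A : Type*} [CommRing A] [IsDomain A] [IsLocalRing A] [IsAdicComplete (IsLocalRing.maximalIdeal A) A]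
  [UniqueFactorizationMonoid A]

omit [IsDomain A] [UniqueFactorizationMonoid A] in
/-- A distinguished polynomial which is prime is prime as a power series. -/
theorem Ufd_prime_dist {f : A[X]} (hf : f.IsDistinguishedAt (IsLocalRing.maximalIdeal A)) (hp : Prime f) :
    Prime (f : PowerSeries A) := by
  have h0 : (f : PowerSeries A) ≠ 0 := by
    intro h
    exact hp.ne_zero (Polynomial.coe_injective A (by rw [h, Polynomial.coe_zero]))
  rw [← Ideal.span_singleton_prime h0, ← Ideal.Quotient.isDomain_iff_prime]
  have h1 : IsDomain (A[X] ⧸ Ideal.span {f}) := by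
    rw [Ideal.Quotient.isDomain_iff_prime, Ideal.span_singleton_prime hp.ne_zero]
    exact hp
  exact hf.algEquivQuotient.symm.toMulEquiv.isDomain _

omit [IsDomain A] [IsAdicComplete (IsLocalRing.maximalIdeal A) A] [UniqueFactorizationMonoid A] in
/-- Monic divisors of distinguished polynomials are distinguished. -/
theorem Ufd_dist_dvd {f b : A[X]} (hf : f.IsDistinguishedAt (IsLocalRing.maximalIdeal A)) (hb : b.Monic)
    (hd : b ∣ f) : b.IsDistinguishedAt (IsLocalRing.maximalIdeal A) := by
  refine ⟨⟨?_⟩, hb⟩
  intro i hi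
  have h1 : f.map (IsLocalRing.residue A) = Polynomial.X ^ f.natDegree := hf.map_eq_X_pow
  have h2 : b.map (IsLocalRing.residue A) ∣ Polynomial.X ^ f.natDegree := by
    rw [← h1]
    exact Polynomial.map_dvd _ hd
  obtain ⟨j, _, hj⟩ := (dvd_prime_pow Polynomial.prime_X _).1 h2
  have h3 : b.map (IsLocalRing.residue A) = Polynomial.X ^ j :=
    Polynomial.eq_of_monic_of_associated (hb.map _) (Polynomial.monic_X_pow j) hj
  have h4 : b.natDegree = j := by
    have := congrArg Polynomial.natDegree h3
    rwa [hb.natDegree_map, Polynomial.natDegree_X_pow] at this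
  have h5 : (b.map (IsLocalRing.residue A)).coeff i = 0 := by
    rw [h3, Polynomial.coeff_X_pow, if_neg (by omega)]
  rw [Polynomial.coeff_map] at h5
  exact (IsLocalRing.residue_eq_zero_iff _).1 h5

/-- A power series which is not zero modulo the maximal ideal of the coefficient ring is a product of primes. -/
theorem Ufd_factor (g : PowerSeries A) (hg : g.map (IsLocalRing.residue A) ≠ 0) :
    ∃ s : Multiset (PowerSeries A), (∀ b ∈ s, Prime b) ∧ Associated s.prod g := by
  obtain ⟨f, h, H⟩ := g.exists_isWeierstrassFactorization hg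
  have hf0 : f ≠ 0 := H.isDistinguishedAt.monic.ne_zero
  obtain ⟨s, hs, hsf⟩ := UniqueFactorizationMonoid.exists_prime_factors f hf0
  refine ⟨s.map (fun b : A[X] => (b : PowerSeries A)), ?_, ?_⟩
  · intro b hb
    rw [Multiset.mem_map] at hb
    obtain ⟨a, ha, rfl⟩ := hb
    have hdvd : a ∣ f := (Multiset.dvd_prod ha).trans hsf.dvd
    obtain ⟨c, hc⟩ := hdvd
    have hlc : a.leadingCoeff * c.leadingCoeff = 1 := by
      rw [← Polynomial.leadingCoeff_mul, ← hc]
      exact H.isDistinguishedAt.monic
    have hu : IsUnit (Polynomial.C c.leadingCoeff) := by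
      rw [Polynomial.isUnit_C]
      exact IsUnit.of_mul_eq_one _ (by rw [mul_comm]; exact hlc)
    have hm : (a * Polynomial.C c.leadingCoeff).Monic := by
      rw [Polynomial.Monic, Polynomial.leadingCoeff_mul, Polynomial.leadingCoeff_C]
      exact hlc
    have hass : Associated a (a * Polynomial.C c.leadingCoeff) := (associated_mul_unit_right a _ hu)
    have h1 : (a * Polynomial.C c.leadingCoeff).IsDistinguishedAt (IsLocalRing.maximalIdeal A) := by
      apply Ufd_dist_dvd H.isDistinguishedAt hm
      exact hass.symm.dvd.trans ⟨c, hc⟩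
    have h2 : Prime (a * Polynomial.C c.leadingCoeff) := hass.prime (hs a ha)
    have h3 := Ufd_prime_dist h1 h2
    have h4 : Associated (a : PowerSeries A) ((a * Polynomial.C c.leadingCoeff : A[X]) : PowerSeries A) := by
      rw [Polynomial.coe_mul]
      apply associated_mul_unit_right
      exact hu.map (Polynomial.coeToPowerSeries.ringHom (R := A))
    exact h4.symm.prime h3
  · have h1 : (s.map (fun b : A[X] => (b : PowerSeries A))).prod = ((s.prod : A[X]) : PowerSeries A) := by
      have := map_multiset_prod (Polynomial.coeToPowerSeries.ringHom (R := A)) s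
      exact this.symm
    rw [h1, H.eq_mul]
    have h2 : Associated ((s.prod : A[X]) : PowerSeries A) (f : PowerSeries A) :=
      hsf.map (Polynomial.coeToPowerSeries.ringHom (R := A))
    exact h2.trans (associated_mul_unit_right _ _ H.isUnit)

end Weier

section Coord

/-- The linear change of coordinates `X 0 ↦ X 0`, `X (j + 1) ↦ X (j + 1) + c j * X 0`. -/
noncomputable def Ufd_sub (c : Fin n → K) : Fin (n + 1) → MvPowerSeries (Fin (n + 1)) K :=
  Fin.cons (X 0) (fun j => X j.succ + C (c j) * X 0)

theorem Ufd_hasSubst (c : Fin n → K) : HasSubst (Ufd_sub c) := by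
  apply hasSubst_of_constantCoeff_zero
  intro i
  refine Fin.cases ?_ (fun j => ?_) i
  · simp [Ufd_sub]
  · simp [Ufd_sub]

private theorem Ufd_sub_comp {c c' : Fin n → K} (hc : ∀ j, c j + c' j = 0) (f : MvPowerSeries (Fin (n + 1)) K) :
    substAlgHom (R := K) (Ufd_hasSubst c') (substAlgHom (R := K) (Ufd_hasSubst c) f) = f := by
  rw [substAlgHom_apply, substAlgHom_apply, subst_comp_subst_apply (Ufd_hasSubst c) (Ufd_hasSubst c')]
  have h1 : (fun s => subst (Ufd_sub c') (Ufd_sub c s)) = (X : Fin (n + 1) → MvPowerSeries (Fin (n + 1)) K) := by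
    funext s
    refine Fin.cases ?_ (fun j => ?_) s
    · show subst (Ufd_sub c') (X 0) = X 0
      rw [subst_X (Ufd_hasSubst c')]
      rfl
    · show subst (Ufd_sub c') (X j.succ + C (c j) * X 0) = X j.succ
      rw [← substAlgHom_apply (R := K) (Ufd_hasSubst c'), map_add, map_mul, substAlgHom_X, substAlgHom_X]
      have h2 : substAlgHom (R := K) (Ufd_hasSubst c') (C (c j)) = C (c j) := by
        have := (substAlgHom (R := K) (Ufd_hasSubst c')).commutes (c j)
        exact this
      rw [h2]
      show X j.succ + C (c' j) * X 0 + C (c j) * X 0 = X j.succ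
      have h3 : (C (c' j) : MvPowerSeries (Fin (n + 1)) K) + C (c j) = 0 := by
        rw [← map_add, add_comm (c' j) (c j), hc j, map_zero]
      calc X j.succ + C (c' j) * X 0 + C (c j) * X 0
          = X j.succ + (C (c' j) + C (c j)) * X 0 := by ring
        _ = X j.succ := by rw [h3, zero_mul, add_zero]
  rw [h1, subst_self]
  rfl

/-- The linear change of coordinates as an automorphism. -/
noncomputable def Ufd_equiv (c : Fin n → K) :
    MvPowerSeries (Fin (n + 1)) K ≃ₐ[K] MvPowerSeries (Fin (n + 1)) K :=
  AlgEquiv.ofAlgHom (substAlgHom (Ufd_hasSubst c)) (substAlgHom (Ufd_hasSubst (fun j => - c j)))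
    (by
      ext1 f
      exact Ufd_sub_comp (fun j => neg_add_cancel (c j)) f)
    (by
      ext1 f
      exact Ufd_sub_comp (fun j => add_neg_cancel (c j)) f)

theorem Ufd_equiv_apply (c : Fin n → K) (f : MvPowerSeries (Fin (n + 1)) K) :
    Ufd_equiv c f = subst (Ufd_sub c) f := by
  show substAlgHom (Ufd_hasSubst c) f = _
  rw [substAlgHom_apply]

/-- Restriction to the first coordinate axis. -/
noncomputable def Ufd_axis : MvPowerSeries (Fin (n + 1)) K →+* PowerSeries K :=
  (PowerSeries.map (constantCoeff (σ := Fin n) (R := K))).comp (finSuccEquiv K n).toRingHom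

theorem Ufd_axis_coeff (p : MvPowerSeries (Fin (n + 1)) K) (k : ℕ) :
    PowerSeries.coeff k (Ufd_axis p) = coeff (Finsupp.cons k 0) p := by
  rw [← coeff_coeff_finSuccEquiv]
  rfl

theorem Ufd_axis_X0 : Ufd_axis (X 0 : MvPowerSeries (Fin (n + 1)) K) = PowerSeries.X := by
  show PowerSeries.map (constantCoeff (σ := Fin n) (R := K)) (finSuccEquiv K n (X 0)) = _
  rw [finSuccEquiv_X_zero, PowerSeries.map_X]

theorem Ufd_axis_Xs (j : Fin n) : Ufd_axis (X j.succ : MvPowerSeries (Fin (n + 1)) K) = 0 := by
  show PowerSeries.map (constantCoeff (σ := Fin n) (R := K)) (finSuccEquiv K n (X j.succ)) = _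
  rw [finSuccEquiv_X_succ, PowerSeries.map_C, constantCoeff_X, map_zero]

theorem Ufd_axis_C (r : K) : Ufd_axis (C r : MvPowerSeries (Fin (n + 1)) K) = PowerSeries.C r := by
  show PowerSeries.map (constantCoeff (σ := Fin n) (R := K)) (finSuccEquiv K n (C r)) = _
  rw [finSuccEquiv_C, PowerSeries.map_C, constantCoeff_C]

theorem Ufd_axis_sub (c : Fin n → K) (i : Fin (n + 1)) :
    Ufd_axis (Ufd_sub c i) = PowerSeries.C ((Fin.cons 1 c : Fin (n + 1) → K) i) * PowerSeries.X := by
  refine Fin.cases ?_ (fun j => ?_) i
  · show Ufd_axis (X 0) = PowerSeries.C 1 * PowerSeries.X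
    rw [Ufd_axis_X0, map_one, one_mul]
  · show Ufd_axis (X j.succ + C (c j) * X 0) = PowerSeries.C (c j) * PowerSeries.X
    rw [map_add, map_mul, Ufd_axis_Xs, Ufd_axis_X0, Ufd_axis_C, zero_add]

theorem Ufd_axis_monomial (c : Fin n → K) (d : Fin (n + 1) →₀ ℕ) (k : ℕ) :
    coeff (Finsupp.cons k 0) (d.prod (fun s e => Ufd_sub c s ^ e)) =
      if k = d.degree then ∏ j, c j ^ (d j.succ) else 0 := by
  rw [← Ufd_axis_coeff, Finsupp.prod_fintype _ _ (fun i => pow_zero _), map_prod]
  have h1 : ∏ i, Ufd_axis (Ufd_sub c i ^ d i) =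
      PowerSeries.C (∏ j, c j ^ (d j.succ)) * PowerSeries.X ^ d.degree := by
    rw [Finsupp.degree_eq_sum, ← Finset.prod_pow_eq_pow_sum]
    have h2 : ∀ i, Ufd_axis (Ufd_sub c i ^ d i) =
        PowerSeries.C (((Fin.cons 1 c : Fin (n + 1) → K) i) ^ d i) * PowerSeries.X ^ d i := by
      intro i
      rw [map_pow, Ufd_axis_sub, mul_pow, map_pow]
    rw [Finset.prod_congr rfl (fun i _ => h2 i), Finset.prod_mul_distrib, ← map_prod]
    congr 2
    rw [Fin.prod_univ_succ]
    simp
  rw [h1, PowerSeries.coeff_C_mul, PowerSeries.coeff_X_pow]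
  split_ifs <;> simp

/-- After a linear change of coordinates every series is regular with respect to the first coordinate. -/
theorem Ufd_regular [Infinite K] (f : MvPowerSeries (Fin (n + 1)) K) (hf : f ≠ 0) :
    ∃ c : Fin n → K, (finSuccEquiv K n (Ufd_equiv c f)).map (IsLocalRing.residue (MvPowerSeries (Fin n) K)) ≠ 0 := by
  classical
  obtain ⟨d0, hd0⟩ : ∃ d, coeff d f ≠ 0 := by
    by_contra h
    push Not at h
    exact hf (by ext d; rw [h d]; simp)
  set k := d0.degree with hk
  let s : Finset (Fin (n + 1) →₀ ℕ) := (Finsupp.finite_of_degree_eq k).toFinset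
  have hs : ∀ d, d ∈ s ↔ d.degree = k := fun d => by simp [s]
  let P : MvPolynomial (Fin n) K := ∑ d ∈ s, MvPolynomial.monomial d.tail (coeff d f)
  have hP : P ≠ 0 := by
    intro h
    have h1 : MvPolynomial.coeff d0.tail P = coeff d0 f := by
      rw [MvPolynomial.coeff_sum, Finset.sum_eq_single d0]
      · rw [MvPolynomial.coeff_monomial, if_pos rfl]
      · intro d hd hne
        rw [MvPolynomial.coeff_monomial, if_neg]
        intro ht
        apply hne
        have h2 : d.degree = d0.degree := by rw [← hk, (hs d).1 hd]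
        rw [Finsupp.degree_eq_sum, Finsupp.degree_eq_sum, Fin.sum_univ_succ, Fin.sum_univ_succ] at h2
        have h3 : ∀ j : Fin n, d j.succ = d0 j.succ := fun j => by
          rw [← Finsupp.tail_apply, ht, Finsupp.tail_apply]
        rw [Finset.sum_congr rfl (fun j _ => h3 j)] at h2
        have h4 : d 0 = d0 0 := by omega
        rw [← Finsupp.cons_tail d, ← Finsupp.cons_tail d0, ht, h4]
      · intro h
        exact absurd ((hs d0).2 rfl) h
    rw [h, MvPolynomial.coeff_zero] at h1
    exact hd0 h1.symm
  obtain ⟨c, hc⟩ : ∃ c : Fin n → K, MvPolynomial.eval c P ≠ 0 := by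
    by_contra h
    push Not at h
    exact hP (MvPolynomial.funext (fun x => by rw [h x, map_zero]))
  refine ⟨c, ?_⟩
  intro h
  have h1 : PowerSeries.coeff k ((finSuccEquiv K n (Ufd_equiv c f)).map
      (IsLocalRing.residue (MvPowerSeries (Fin n) K))) = 0 := by
    rw [h, map_zero]
  rw [PowerSeries.coeff_map, IsLocalRing.residue_eq_zero_iff, Ufd_mem_max] at h1
  have h2 : coeff (Finsupp.cons k 0) (Ufd_equiv c f) = 0 := by
    rw [← coeff_coeff_finSuccEquiv]
    exact h1
  apply hc
  rw [map_sum]
  have h3 : coeff (Finsupp.cons k 0) (subst (Ufd_sub c) f) = 0 := by rw [← Ufd_equiv_apply]; exact h2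
  rw [coeff_subst (Ufd_hasSubst c)] at h3
  rw [finsum_eq_sum_of_support_subset (s := s)] at h3
  · rw [← h3]
    apply Finset.sum_congr rfl
    intro d hd
    rw [Ufd_axis_monomial, if_pos ((hs d).1 hd).symm, MvPolynomial.eval_monomial, smul_eq_mul,
      Finsupp.prod_fintype _ _ (fun i => pow_zero _)]
    simp only [Finsupp.tail_apply]
  · intro d hd
    rw [Finset.mem_coe, hs]
    rw [Function.mem_support, Ufd_axis_monomial] at hd
    by_contra hne
    rw [if_neg (fun h => hne h.symm), smul_zero] at hd
    exact hd rfl

end Coord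

/-- The ring of power series in finitely many variables over an infinite field is factorial. -/
instance Ufd_main [Infinite K] : UniqueFactorizationMonoid (MvPowerSeries (Fin n) K) := by
  induction n with
  | zero =>
    exact (isEmptyEquiv (Fin 0) K).symm.toMulEquiv.uniqueFactorizationMonoid inferInstance
  | succ n ih =>
    have : IsDomain (MvPowerSeries (Fin n) K) := NoZeroDivisors.to_isDomain _
    have : IsDomain (MvPowerSeries (Fin (n + 1)) K) := NoZeroDivisors.to_isDomain _
    apply UniqueFactorizationMonoid.of_exists_prime_factors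
    intro f hf
    obtain ⟨c, hc⟩ := Ufd_regular f hf
    obtain ⟨s, hs, hsf⟩ := Ufd_factor _ hc
    let e := (Ufd_equiv c).trans (finSuccEquiv K n)
    refine ⟨s.map e.symm, ?_, ?_⟩
    · intro b hb
      rw [Multiset.mem_map] at hb
      obtain ⟨a, ha, rfl⟩ := hb
      exact (MulEquiv.prime_iff e.symm).2 (hs a ha)
    · have h1 := hsf.map e.symm
      rw [map_multiset_prod] at h1
      have h2 : e.symm (finSuccEquiv K n (Ufd_equiv c f)) = f := e.symm_apply_apply f
      rw [h2] at h1
      exact h1

end Pool.Agent.DTZ
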