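import Pool.Agent.DTZ.Ufd
import Mathlib.RingTheory.Nakayama
import Mathlib.RingTheory.AdicCompletion.Functoriality
import Mathlib.LinearAlgebra.Matrix.NonsingularInverse

/-!
Module Inv: the inverse function theorem for power series. If the series `a 0, ..., a (n - 1)` in `n` variables have no
constant terms and independent linear parts, then they generate the maximal ideal, and the substitution
`X i ↦ a i` is an automorphism.
-/

namespace Pool.Agent.DTZ

open MvPowerSeries

variable {K : Type*} [Field K] {n : ℕ}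

/-- A surjective endomorphism of a noetherian ring is injective. -/
theorem Inv_inj {R : Type*} [CommRing R] [IsNoetherianRing R] (φ : R →+* R) (h : Function.Surjective φ) :
    Function.Injective φ := by
  let k : ℕ → Ideal R := fun m => Nat.rec ⊥ (fun _ I => I.comap φ) m
  have hk0 : k 0 = ⊥ := rfl
  have hk1 : ∀ m, k (m + 1) = (k m).comap φ := fun _ => rfl
  have hmono : Monotone k := by
    apply monotone_nat_of_le_succ
    intro m
    induction m with
    | zero =>
      rw [hk0]
      exact bot_le
    | succ m ih =>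
      rw [hk1 m, hk1 (m + 1)]
      exact Ideal.comap_mono ih
  have hmem : ∀ m x, x ∈ k m ↔ (φ^[m]) x = 0 := by
    intro m
    induction m with
    | zero =>
      intro x
      rw [hk0]
      simp
    | succ m ih =>
      intro x
      rw [hk1, Ideal.mem_comap, ih, Function.iterate_succ_apply]
  obtain ⟨m, hm⟩ := monotone_stabilizes_iff_noetherian.2 (inferInstanceAs (IsNoetherian R R)) ⟨k, hmono⟩
  rw [injective_iff_map_eq_zero]
  intro x hx
  obtain ⟨y, hy⟩ := h.iterate m x
  have h1 : y ∈ k (m + 1) := (hmem (m + 1) y).2 (by rw [Function.iterate_succ_apply', hy, hx])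
  have h2 : k m = k (m + 1) := hm (m + 1) (Nat.le_succ m)
  rw [← h2] at h1
  rw [← hy]
  exact (hmem m y).1 h1

/-- The linear part of a series. -/
noncomputable def lin (f : MvPowerSeries (Fin n) K) (j : Fin n) : K := coeff (Finsupp.single j 1) f

/-- The square of the maximal ideal. -/
theorem Inv_mem_sq (f : MvPowerSeries (Fin n) K) :
    f ∈ IsLocalRing.maximalIdeal (MvPowerSeries (Fin n) K) ^ 2 ↔ constantCoeff f = 0 ∧ ∀ j, lin f j = 0 := by
  rw [Ufd_mem_pow]
  constructor
  · intro h
    refine ⟨?_, fun j => h _ ?_⟩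
    · rw [← coeff_zero_eq_constantCoeff_apply]
      exact h 0 (by simp)
    · rw [Finsupp.degree_single]
      omega
  · rintro ⟨h0, h1⟩ d hd
    by_cases hd0 : d = 0
    · rw [hd0, coeff_zero_eq_constantCoeff_apply, h0]
    · have h2 : d.degree = 1 := by
        have : d.degree ≠ 0 := fun h => hd0 ((Finsupp.degree_eq_zero_iff d).1 h)
        omega
      have h3 : d ∈ Set.range (fun a : Fin n => Finsupp.single a 1) := by
        rw [Finsupp.range_single_one]
        exact h2
      obtain ⟨j, rfl⟩ := h3
      exact h1 j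

theorem lin_X (i j : Fin n) : lin (X i : MvPowerSeries (Fin n) K) j = if i = j then 1 else 0 := by
  rw [lin, coeff_index_single_X]
  by_cases h : i = j
  · rw [if_pos h, if_pos h.symm]
  · rw [if_neg h, if_neg (fun h' => h h'.symm)]

theorem lin_add (f g : MvPowerSeries (Fin n) K) (j : Fin n) : lin (f + g) j = lin f j + lin g j := by
  rw [lin, map_add]
  rfl

theorem lin_C_mul (c : K) (f : MvPowerSeries (Fin n) K) (j : Fin n) : lin (C c * f) j = c * lin f j := by
  rw [lin, coeff_C_mul]
  rfl

theorem lin_sum {ι : Type*} (s : Finset ι) (f : ι → MvPowerSeries (Fin n) K) (j : Fin n) :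
    lin (∑ i ∈ s, f i) j = ∑ i ∈ s, lin (f i) j := by
  rw [lin, map_sum]
  rfl

/-- The variables generate the maximal ideal. -/
theorem Inv_span_X : Ideal.span (Set.range (X : Fin n → MvPowerSeries (Fin n) K)) =
    IsLocalRing.maximalIdeal (MvPowerSeries (Fin n) K) := by
  apply le_antisymm
  · rw [Ideal.span_le]
    rintro _ ⟨i, rfl⟩
    rw [SetLike.mem_coe, Ufd_mem_max]
    exact constantCoeff_X i
  · intro f hf
    rw [Ufd_mem_max] at hf
    obtain ⟨g, hg, _⟩ := Ufd_split 0 f (by
      intro d hd
      have : d = 0 := (Finsupp.degree_eq_zero_iff d).1 (by omega)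
      rw [this, coeff_zero_eq_constantCoeff_apply, hf])
    rw [hg]
    apply Ideal.sum_mem
    intro i _
    exact Ideal.mul_mem_right _ _ (Ideal.subset_span ⟨i, rfl⟩)

/-- Series without constant terms and with independent linear parts generate the maximal ideal. -/
theorem Inv_span {a : Fin n → MvPowerSeries (Fin n) K} (h0 : ∀ i, constantCoeff (a i) = 0)
    (hdet : (Matrix.of fun i j => lin (a i) j).det ≠ 0) :
    Ideal.span (Set.range a) = IsLocalRing.maximalIdeal (MvPowerSeries (Fin n) K) := by
  set M : Matrix (Fin n) (Fin n) K := Matrix.of fun i j => lin (a i) j with hM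
  apply le_antisymm
  · rw [Ideal.span_le]
    rintro _ ⟨i, rfl⟩
    rw [SetLike.mem_coe, Ufd_mem_max]
    exact h0 i
  · apply Submodule.le_of_le_smul_of_le_jacobson_bot (I := IsLocalRing.maximalIdeal (MvPowerSeries (Fin n) K))
    · exact IsNoetherian.noetherian _
    · rw [IsLocalRing.jacobson_eq_maximalIdeal _ bot_ne_top]
    · conv_lhs => rw [← Inv_span_X]
      rw [Ideal.span_le]
      rintro _ ⟨j, rfl⟩
      rw [SetLike.mem_coe]
      have h1 : X j - ∑ i, C (M⁻¹ j i) * a i ∈ IsLocalRing.maximalIdeal (MvPowerSeries (Fin n) K) ^ 2 := by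
        rw [Inv_mem_sq]
        constructor
        · rw [map_sub, constantCoeff_X, map_sum]
          simp [h0]
        · intro l
          have h2 : lin (X j - ∑ i, C (M⁻¹ j i) * a i) l = lin (X j) l - ∑ i, M⁻¹ j i * M i l := by
            have h3 : X j = (X j - ∑ i, C (M⁻¹ j i) * a i) + ∑ i, C (M⁻¹ j i) * a i := by ring
            have h4 : lin (X j) l = lin (X j - ∑ i, C (M⁻¹ j i) * a i) l + lin (∑ i, C (M⁻¹ j i) * a i) l := by
              conv_lhs => rw [h3]
              rw [lin_add]
            rw [h4, lin_sum]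
            simp only [lin_C_mul]
            simp [M]
          have h5 : ∑ i, M⁻¹ j i * M i l = (M⁻¹ * M) j l := by rw [Matrix.mul_apply]
          rw [h2, h5, Matrix.nonsing_inv_mul _ (isUnit_iff_ne_zero.2 hdet), lin_X, Matrix.one_apply, sub_self]
      have h2 : X j = ∑ i, C (M⁻¹ j i) * a i + (X j - ∑ i, C (M⁻¹ j i) * a i) := by ring
      rw [h2]
      apply Submodule.add_mem_sup
      · apply Ideal.sum_mem
        intro i _
        exact Ideal.mul_mem_left _ _ (Ideal.subset_span ⟨i, rfl⟩)
      · rw [smul_eq_mul, ← pow_two]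
        exact h1

/-- The substitution `X i ↦ a i` is bijective. -/
theorem Inv_bij {a : Fin n → MvPowerSeries (Fin n) K} (h0 : ∀ i, constantCoeff (a i) = 0)
    (hs : Ideal.span (Set.range a) = IsLocalRing.maximalIdeal (MvPowerSeries (Fin n) K)) :
    Function.Bijective (substAlgHom (R := K) (hasSubst_of_constantCoeff_zero h0)) := by
  have hsurj : Function.Surjective (substAlgHom (R := K) (hasSubst_of_constantCoeff_zero h0)).toRingHom := by
    have hmap : (IsLocalRing.maximalIdeal (MvPowerSeries (Fin n) K)).map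
        (substAlgHom (R := K) (hasSubst_of_constantCoeff_zero h0)).toRingHom =
        IsLocalRing.maximalIdeal (MvPowerSeries (Fin n) K) := by
      conv_lhs => rw [← Inv_span_X]
      rw [Ideal.map_span, ← hs]
      congr 1
      ext y
      constructor
      · rintro ⟨_, ⟨i, rfl⟩, rfl⟩
        exact ⟨i, (substAlgHom_X (R := K) (hasSubst_of_constantCoeff_zero h0) i).symm⟩
      · rintro ⟨i, rfl⟩
        exact ⟨X i, ⟨i, rfl⟩, substAlgHom_X (R := K) (hasSubst_of_constantCoeff_zero h0) i⟩
    have : IsHausdorff ((IsLocalRing.maximalIdeal (MvPowerSeries (Fin n) K)).map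
        (substAlgHom (R := K) (hasSubst_of_constantCoeff_zero h0)).toRingHom) (MvPowerSeries (Fin n) K) := by
      rw [hmap]
      infer_instance
    apply surjective_of_mk_map_comp_surjective
      (I := IsLocalRing.maximalIdeal (MvPowerSeries (Fin n) K))
    intro y
    obtain ⟨x, rfl⟩ := Ideal.Quotient.mk_surjective y
    refine ⟨C (constantCoeff x), ?_⟩
    rw [RingHom.comp_apply, Ideal.Quotient.eq, hmap, Ufd_mem_max, map_sub]
    have h1 : (substAlgHom (R := K) (hasSubst_of_constantCoeff_zero h0)).toRingHom (C (constantCoeff x)) =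
        C (constantCoeff x) := (substAlgHom (R := K) (hasSubst_of_constantCoeff_zero h0)).commutes (constantCoeff x)
    rw [h1, constantCoeff_C, sub_self]
  exact ⟨Inv_inj _ hsurj, hsurj⟩

/-- The substitution `X i ↦ a i` as an automorphism. -/
noncomputable def Inv_equiv {a : Fin n → MvPowerSeries (Fin n) K} (h0 : ∀ i, constantCoeff (a i) = 0)
    (hs : Ideal.span (Set.range a) = IsLocalRing.maximalIdeal (MvPowerSeries (Fin n) K)) :
    MvPowerSeries (Fin n) K ≃ₐ[K] MvPowerSeries (Fin n) K :=
  AlgEquiv.ofBijective (substAlgHom (R := K) (hasSubst_of_constantCoeff_zero h0)) (Inv_bij h0 hs)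

theorem Inv_equiv_apply {a : Fin n → MvPowerSeries (Fin n) K} (h0 : ∀ i, constantCoeff (a i) = 0)
    (hs : Ideal.span (Set.range a) = IsLocalRing.maximalIdeal (MvPowerSeries (Fin n) K))
    (f : MvPowerSeries (Fin n) K) : Inv_equiv h0 hs f = subst a f := by
  show substAlgHom (R := K) (hasSubst_of_constantCoeff_zero h0) f = _
  rw [substAlgHom_apply]

theorem Inv_equiv_X {a : Fin n → MvPowerSeries (Fin n) K} (h0 : ∀ i, constantCoeff (a i) = 0)
    (hs : Ideal.span (Set.range a) = IsLocalRing.maximalIdeal (MvPowerSeries (Fin n) K)) (i : Fin n) :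
    Inv_equiv h0 hs (X i) = a i := by
  rw [Inv_equiv_apply, subst_X (hasSubst_of_constantCoeff_zero h0)]

theorem Inv_equiv_C {a : Fin n → MvPowerSeries (Fin n) K} (h0 : ∀ i, constantCoeff (a i) = 0)
    (hs : Ideal.span (Set.range a) = IsLocalRing.maximalIdeal (MvPowerSeries (Fin n) K)) (c : K) :
    Inv_equiv h0 hs (C c) = C c := (Inv_equiv h0 hs).commutes c

end Pool.Agent.DTZ
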