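import Mathlib.RingTheory.AdicCompletion.Algebra
import Mathlib.RingTheory.AdicCompletion.Noetherian
import Mathlib.RingTheory.AdicCompletion.LocalRing
import Mathlib.RingTheory.Localization.AtPrime.Basic
import Mathlib.RingTheory.Nakayama

/-!
Module CmpG: general facts on completions of local rings.
-/

namespace Pool.Agent.DTZ

open IsLocalRing

/-- A complete local ring in which a local ring `A` is dense, with the induced filtration, is the completion of `A`. -/
theorem CmpG_equiv {A T : Type*} [CommRing A] [IsLocalRing A] [CommRing T] [IsLocalRing T]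
    [IsAdicComplete (maximalIdeal T) T] (h : A →+* T)
    (h1 : ∀ n a, h a ∈ maximalIdeal T ^ n ↔ a ∈ maximalIdeal A ^ n)
    (h2 : ∀ n t, ∃ a, t - h a ∈ maximalIdeal T ^ n) :
    ∃ e : T ≃+* AdicCompletion (maximalIdeal A) A,
      ∀ a, e (h a) = algebraMap A (AdicCompletion (maximalIdeal A) A) a := by
  classical
  -- the maps modulo powers
  let q : ∀ n, A ⧸ maximalIdeal A ^ n →+* T ⧸ maximalIdeal T ^ n := fun n =>
    Ideal.quotientMap (maximalIdeal T ^ n) h (fun a ha => (h1 n a).2 ha)
  have hq : ∀ n a, q n (Ideal.Quotient.mk _ a) = Ideal.Quotient.mk _ (h a) := fun n a => rfl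
  have hbij : ∀ n, Function.Bijective (q n) := by
    intro n
    constructor
    · rw [injective_iff_map_eq_zero]
      intro x hx
      obtain ⟨a, rfl⟩ := Ideal.Quotient.mk_surjective x
      rw [hq, Ideal.Quotient.eq_zero_iff_mem] at hx
      rw [Ideal.Quotient.eq_zero_iff_mem]
      exact (h1 n a).1 hx
    · intro y
      obtain ⟨t, rfl⟩ := Ideal.Quotient.mk_surjective y
      obtain ⟨a, ha⟩ := h2 n t
      refine ⟨Ideal.Quotient.mk _ a, ?_⟩
      rw [hq, eq_comm, Ideal.Quotient.eq]
      exact ha
  let Q : ∀ n, A ⧸ maximalIdeal A ^ n ≃+* T ⧸ maximalIdeal T ^ n := fun n => RingEquiv.ofBijective (q n) (hbij n)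
  let f : ∀ n, T →+* A ⧸ maximalIdeal A ^ n := fun n =>
    ((Q n).symm : T ⧸ maximalIdeal T ^ n →+* A ⧸ maximalIdeal A ^ n).comp (Ideal.Quotient.mk _)
  have hf : ∀ n t a, t - h a ∈ maximalIdeal T ^ n → f n t = Ideal.Quotient.mk _ a := by
    intro n t a hta
    change (Q n).symm (Ideal.Quotient.mk _ t) = _
    rw [RingEquiv.symm_apply_eq]
    change _ = q n (Ideal.Quotient.mk _ a)
    rw [hq, Ideal.Quotient.eq]
    exact hta
  have hf' : ∀ n t, f n t = 0 → t ∈ maximalIdeal T ^ n := by
    intro n t ht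
    change (Q n).symm (Ideal.Quotient.mk _ t) = 0 at ht
    rw [RingEquiv.symm_apply_eq, map_zero, Ideal.Quotient.eq_zero_iff_mem] at ht
    exact ht
  have hcomp : ∀ {m n : ℕ} (hle : m ≤ n), (Ideal.Quotient.factorPow (maximalIdeal A) hle).comp (f n) = f m := by
    intro m n hle
    ext t
    obtain ⟨a, ha⟩ := h2 n t
    rw [RingHom.comp_apply, hf n t a ha, hf m t a (Ideal.pow_le_pow_right hle ha)]
    rfl
  let F : T →+* AdicCompletion (maximalIdeal A) A := AdicCompletion.liftRingHom (maximalIdeal A) f hcomp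
  have hF : ∀ n t, AdicCompletion.evalₐ (maximalIdeal A) n (F t) = f n t := fun n t =>
    AdicCompletion.evalₐ_liftRingHom (maximalIdeal A) f hcomp n t
  have hinj : Function.Injective F := by
    rw [injective_iff_map_eq_zero]
    intro t ht
    apply IsHausdorff.haus (inferInstance : IsHausdorff (maximalIdeal T) T) t
    intro n
    have h3 : f n t = 0 := by rw [← hF, ht, map_zero]
    have h4 := hf' n t h3
    rw [SModEq.zero]
    simpa using h4
  have hsurj : Function.Surjective F := by
    intro x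
    have hx : ∀ n, ∃ a : A, Ideal.Quotient.mk _ a = AdicCompletion.evalₐ (maximalIdeal A) n x := fun n =>
      Ideal.Quotient.mk_surjective _
    choose a ha using hx
    have hcauchy : ∀ {m n : ℕ}, m ≤ n → h (a m) ≡ h (a n) [SMOD (maximalIdeal T ^ m • ⊤ : Submodule T T)] := by
      intro m n hmn
      rw [SModEq.sub_mem, ← map_sub]
      have h5 : a m - a n ∈ maximalIdeal A ^ m := by
        rw [← Ideal.Quotient.eq, ha m]
        have h6 : AdicCompletion.evalₐ (maximalIdeal A) m x =
            Ideal.Quotient.factorPow (maximalIdeal A) hmn (AdicCompletion.evalₐ (maximalIdeal A) n x) := by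
          obtain ⟨y, rfl⟩ := AdicCompletion.mk_surjective (maximalIdeal A) A x
          rw [AdicCompletion.evalₐ_mk, AdicCompletion.evalₐ_mk]
          change _ = Ideal.Quotient.mk (maximalIdeal A ^ m) (y.val n)
          rw [Ideal.Quotient.eq]
          have h7 := y.property hmn
          rw [SModEq.sub_mem] at h7
          simpa using h7
        rw [h6, ← ha n]
        rfl
      have h8 := (h1 m _).2 h5
      simpa using h8
    obtain ⟨L, hL⟩ := IsPrecomplete.prec (inferInstance : IsPrecomplete (maximalIdeal T) T) hcauchy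
    refine ⟨L, ?_⟩
    apply AdicCompletion.ext_evalₐ
    intro n
    rw [hF, ← ha n]
    apply hf
    have h9 := hL n
    rw [SModEq.comm, SModEq.sub_mem] at h9
    simpa using h9
  refine ⟨RingEquiv.ofBijective F ⟨hinj, hsurj⟩, ?_⟩
  intro a
  change F (h a) = _
  apply AdicCompletion.ext_evalₐ
  intro n
  rw [hF, hf n (h a) a (by rw [sub_self]; exact zero_mem _)]
  rw [AdicCompletion.algebraMap_apply]
  exact (AdicCompletion.evalₐ_of (maximalIdeal A) n a).symm

/-- A proper quotient of a noetherian complete local ring is complete. -/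
theorem CmpG_quot {T : Type*} [CommRing T] [IsLocalRing T] [IsNoetherianRing T]
    [IsAdicComplete (maximalIdeal T) T] (J : Ideal T) [IsLocalRing (T ⧸ J)] :
    IsAdicComplete (maximalIdeal (T ⧸ J)) (T ⧸ J) := by
  have hmap : (maximalIdeal T).map (Ideal.Quotient.mk J) = maximalIdeal (T ⧸ J) :=
    map_maximalIdeal_of_surjective _ Ideal.Quotient.mk_surjective
  have hpow : ∀ n, maximalIdeal (T ⧸ J) ^ n = (maximalIdeal T ^ n).map (Ideal.Quotient.mk J) := by
    intro n
    rw [Ideal.map_pow, hmap]
  -- lifting of elements of the powers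
  have hlift : ∀ n (x : T ⧸ J), x ∈ maximalIdeal (T ⧸ J) ^ n →
      ∃ t ∈ maximalIdeal T ^ n, Ideal.Quotient.mk J t = x := by
    intro n x hx
    rw [hpow, Ideal.mem_map_iff_of_surjective _ Ideal.Quotient.mk_surjective] at hx
    exact hx
  have hprec : IsPrecomplete (maximalIdeal (T ⧸ J)) (T ⧸ J) := by
    rw [isPrecomplete_iff]
    intro f hf
    have hf' : ∀ n, f (n + 1) - f n ∈ maximalIdeal (T ⧸ J) ^ n := by
      intro n
      have h1 := hf (Nat.le_succ n)
      rw [SModEq.comm, SModEq.sub_mem] at h1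
      simpa using h1
    choose d hd1 hd2 using fun n => hlift n _ (hf' n)
    obtain ⟨t0, ht0⟩ := Ideal.Quotient.mk_surjective (f 0)
    let g : ℕ → T := fun n => t0 + ∑ i ∈ Finset.range n, d i
    have hg : ∀ n, Ideal.Quotient.mk J (g n) = f n := by
      intro n
      induction n with
      | zero => simp [g, ht0]
      | succ n ih =>
        have : g (n + 1) = g n + d n := by
          simp only [g, Finset.sum_range_succ, add_assoc]
        rw [this, map_add, ih, hd2]
        ring
    have hg2 : ∀ {m n : ℕ}, m ≤ n → g n - g m ∈ maximalIdeal T ^ m := by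
      intro m n hmn
      induction n, hmn using Nat.le_induction with
      | base => rw [sub_self]; exact zero_mem _
      | succ n hmn ih =>
        have : g (n + 1) - g m = (g n - g m) + d n := by
          simp only [g, Finset.sum_range_succ]
          ring
        rw [this]
        exact add_mem ih (Ideal.pow_le_pow_right hmn (hd1 n))
    have hcauchy : ∀ {m n : ℕ}, m ≤ n → g m ≡ g n [SMOD (maximalIdeal T ^ m • ⊤ : Submodule T T)] := by
      intro m n hmn
      rw [SModEq.comm, SModEq.sub_mem]
      simpa using hg2 hmn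
    obtain ⟨L, hL⟩ := IsPrecomplete.prec (inferInstance : IsPrecomplete (maximalIdeal T) T) hcauchy
    refine ⟨Ideal.Quotient.mk J L, ?_⟩
    intro n
    rw [SModEq.sub_mem, ← hg n, ← map_sub]
    have h2 := hL n
    rw [SModEq.sub_mem] at h2
    have h3 : g n - L ∈ maximalIdeal T ^ n := by simpa using h2
    have h4 : Ideal.Quotient.mk J (g n - L) ∈ maximalIdeal (T ⧸ J) ^ n := by
      rw [hpow]
      exact Ideal.mem_map_of_mem _ h3
    simpa using h4
  have hn : IsNoetherianRing (T ⧸ J) := isNoetherianRing_of_surjective T (T ⧸ J) _ Ideal.Quotient.mk_surjective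
  have hh : IsHausdorff (maximalIdeal (T ⧸ J)) (T ⧸ J) :=
    IsHausdorff.of_le_jacobson _ _ (maximalIdeal_le_jacobson _)
  exact { haus' := hh.haus', prec' := hprec.prec' }

/-- The completion of the localisation of a quotient. `g` is a ring map to a noetherian complete local ring `T` which
induces an isomorphism of the completion of the localisation at `P` with `T`. -/
theorem CmpG_main {S T : Type*} [CommRing S] [CommRing T] [IsLocalRing T] [IsNoetherianRing T]
    [IsAdicComplete (maximalIdeal T) T] (P : Ideal S) [P.IsPrime] (g : S →+* T)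
    (h0 : ∀ a, g a ∈ maximalIdeal T ↔ a ∈ P)
    (h1 : ∀ n a, g a ∈ maximalIdeal T ^ n → ∃ b ∉ P, b * a ∈ P ^ n)
    (h2 : ∀ n t, ∃ b ∉ P, ∃ a, g b * t - g a ∈ maximalIdeal T ^ n)
    (I : Ideal S) (hI : I ≤ P) (p : Ideal (S ⧸ I)) [p.IsPrime]
    (hp : ∀ a, Ideal.Quotient.mk I a ∈ p ↔ a ∈ P) :
    ∃ e : (T ⧸ I.map g) ≃+*
        AdicCompletion (maximalIdeal (Localization.AtPrime p)) (Localization.AtPrime p),
      ∀ a : S, e (Ideal.Quotient.mk _ (g a)) =
        algebraMap (Localization.AtPrime p) _
          (algebraMap (S ⧸ I) (Localization.AtPrime p) (Ideal.Quotient.mk I a)) := by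
  classical
  have hJm : I.map g ≤ maximalIdeal T := by
    rw [Ideal.map_le_iff_le_comap]
    intro a ha
    exact (h0 a).2 (hI ha)
  have hJtop : I.map g ≠ ⊤ := fun h => (maximalIdeal.isMaximal T).ne_top (top_le_iff.1 (h ▸ hJm))
  have : Nontrivial (T ⧸ I.map g) := Ideal.Quotient.nontrivial_iff.2 hJtop
  have hloc : IsLocalRing (T ⧸ I.map g) :=
    IsLocalRing.of_surjective' (Ideal.Quotient.mk (I.map g)) Ideal.Quotient.mk_surjective
  have hcompl : IsAdicComplete (maximalIdeal (T ⧸ I.map g)) (T ⧸ I.map g) := CmpG_quot _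
  have hmap : (maximalIdeal T).map (Ideal.Quotient.mk (I.map g)) = maximalIdeal (T ⧸ I.map g) :=
    map_maximalIdeal_of_surjective _ Ideal.Quotient.mk_surjective
  have hpow : ∀ n, maximalIdeal (T ⧸ I.map g) ^ n = (maximalIdeal T ^ n).map (Ideal.Quotient.mk (I.map g)) := by
    intro n
    rw [Ideal.map_pow, hmap]
  let h' : S ⧸ I →+* T ⧸ I.map g := Ideal.quotientMap (I.map g) g Ideal.le_comap_map
  have hh' : ∀ a, h' (Ideal.Quotient.mk I a) = Ideal.Quotient.mk _ (g a) := fun a => rfl
  have hunit : ∀ b ∉ P, IsUnit (Ideal.Quotient.mk (I.map g) (g b)) := by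
    intro b hb
    apply IsUnit.map
    by_contra hcon
    exact hb ((h0 b).1 ((mem_maximalIdeal _).2 hcon))
  have hunit' : ∀ y : p.primeCompl, IsUnit (h' y) := by
    rintro ⟨y, hy⟩
    obtain ⟨b, rfl⟩ := Ideal.Quotient.mk_surjective y
    exact hunit b (fun hb => hy ((hp b).2 hb))
  let h : Localization.AtPrime p →+* T ⧸ I.map g := IsLocalization.lift (M := p.primeCompl) hunit'
  have hh : ∀ y, h (algebraMap (S ⧸ I) (Localization.AtPrime p) y) = h' y := fun y =>
    IsLocalization.lift_eq hunit' y
  have hspan : ∀ n, ∀ j ∈ I.map g, ∃ b ∉ P, ∃ i ∈ I, g b * j - g i ∈ maximalIdeal T ^ n := by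
    intro n j hj
    have hone : (1 : S) ∉ P := fun hh => (inferInstance : P.IsPrime).ne_top ((Ideal.eq_top_iff_one _).2 hh)
    induction hj using Submodule.span_induction with
    | mem x hx =>
      obtain ⟨i, hi, rfl⟩ := hx
      refine ⟨1, hone, i, hi, ?_⟩
      rw [map_one, one_mul, sub_self]
      exact zero_mem _
    | zero =>
      refine ⟨1, hone, 0, zero_mem _, ?_⟩
      rw [mul_zero, map_zero, sub_self]
      exact zero_mem _
    | add x y _ _ hx hy =>
      obtain ⟨b1, hb1, i1, hi1, h1⟩ := hx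
      obtain ⟨b2, hb2, i2, hi2, h2⟩ := hy
      refine ⟨b1 * b2, fun hb => ((inferInstance : P.IsPrime).mem_or_mem hb).elim hb1 hb2,
        b2 * i1 + b1 * i2, add_mem (Ideal.mul_mem_left _ _ hi1) (Ideal.mul_mem_left _ _ hi2), ?_⟩
      have : g (b1 * b2) * (x + y) - g (b2 * i1 + b1 * i2) =
          g b2 * (g b1 * x - g i1) + g b1 * (g b2 * y - g i2) := by
        simp only [map_mul, map_add]
        ring
      rw [this]
      exact add_mem (Ideal.mul_mem_left _ _ h1) (Ideal.mul_mem_left _ _ h2)
    | smul t x _ hx =>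
      obtain ⟨b1, hb1, i1, hi1, h1⟩ := hx
      obtain ⟨b2, hb2, a2, h3⟩ := h2 n t
      refine ⟨b1 * b2, fun hb => ((inferInstance : P.IsPrime).mem_or_mem hb).elim hb1 hb2,
        a2 * i1, Ideal.mul_mem_left _ _ hi1, ?_⟩
      have : g (b1 * b2) * (t • x) - g (a2 * i1) =
          g b2 * t * (g b1 * x - g i1) + g i1 * (g b2 * t - g a2) := by
        simp only [map_mul, smul_eq_mul]
        ring
      rw [this]
      exact add_mem (Ideal.mul_mem_left _ _ h1) (Ideal.mul_mem_left _ _ h3)
  have hmA : ∀ a, algebraMap (S ⧸ I) (Localization.AtPrime p) (Ideal.Quotient.mk I a) ∈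
      maximalIdeal (Localization.AtPrime p) ↔ a ∈ P := by
    intro a
    rw [← hp a]
    exact IsLocalization.AtPrime.to_map_mem_maximal_iff (Localization.AtPrime p) p _
  have hPn : ∀ n a, a ∈ P ^ n → algebraMap (S ⧸ I) (Localization.AtPrime p) (Ideal.Quotient.mk I a) ∈
      maximalIdeal (Localization.AtPrime p) ^ n := by
    intro n a ha
    have h3 : P.map ((algebraMap (S ⧸ I) (Localization.AtPrime p)).comp (Ideal.Quotient.mk I)) ≤
        maximalIdeal (Localization.AtPrime p) := by
      rw [Ideal.map_le_iff_le_comap]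
      intro a ha
      exact (hmA a).2 ha
    have h4 := Ideal.pow_right_mono h3 n
    rw [← Ideal.map_pow] at h4
    exact h4 (Ideal.mem_map_of_mem _ ha)
  have hrep : ∀ x : Localization.AtPrime p, ∃ a b : S, b ∉ P ∧
      x * algebraMap (S ⧸ I) (Localization.AtPrime p) (Ideal.Quotient.mk I b) =
        algebraMap (S ⧸ I) (Localization.AtPrime p) (Ideal.Quotient.mk I a) := by
    intro x
    obtain ⟨⟨y, s⟩, hs⟩ := IsLocalization.surj p.primeCompl x
    obtain ⟨a, rfl⟩ := Ideal.Quotient.mk_surjective y
    obtain ⟨s, hs'⟩ := s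
    obtain ⟨b, rfl⟩ := Ideal.Quotient.mk_surjective s
    exact ⟨a, b, fun hb => hs' ((hp b).2 hb), hs⟩
  have hunitA : ∀ b ∉ P, IsUnit (algebraMap (S ⧸ I) (Localization.AtPrime p) (Ideal.Quotient.mk I b)) := by
    intro b hb
    by_contra hcon
    exact hb ((hmA b).1 ((mem_maximalIdeal _).2 hcon))
  have H1 : ∀ n x, h x ∈ maximalIdeal (T ⧸ I.map g) ^ n ↔ x ∈ maximalIdeal (Localization.AtPrime p) ^ n := by
    intro n x
    constructor
    · intro hx
      obtain ⟨a, b, hb, hab⟩ := hrep x
      have h3 : Ideal.Quotient.mk (I.map g) (g a) ∈ maximalIdeal (T ⧸ I.map g) ^ n := by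
        have h4 : h x * Ideal.Quotient.mk (I.map g) (g b) = Ideal.Quotient.mk (I.map g) (g a) := by
          have := congrArg h hab
          rw [map_mul, hh, hh, hh', hh'] at this
          exact this
        rw [← h4]
        exact Ideal.mul_mem_right _ _ hx
      rw [hpow, Ideal.mem_map_iff_of_surjective _ Ideal.Quotient.mk_surjective] at h3
      obtain ⟨t, ht, htt⟩ := h3
      have h5 : g a - t ∈ I.map g := by
        rw [← Ideal.Quotient.eq, htt]
      obtain ⟨b1, hb1, i, hi, h6⟩ := hspan n _ h5
      have h7 : g (b1 * a - i) ∈ maximalIdeal T ^ n := by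
        have : g (b1 * a - i) = (g b1 * (g a - t) - g i) + g b1 * t := by
          rw [map_sub, map_mul]
          ring
        rw [this]
        exact add_mem h6 (Ideal.mul_mem_left _ _ ht)
      obtain ⟨b2, hb2, h8⟩ := h1 n _ h7
      have h9 := hPn n _ h8
      have h10 : Ideal.Quotient.mk I (b2 * (b1 * a - i)) = Ideal.Quotient.mk I (b2 * b1 * a) := by
        rw [Ideal.Quotient.eq]
        have : b2 * (b1 * a - i) - b2 * b1 * a = - (b2 * i) := by ring
        rw [this]
        exact neg_mem (Ideal.mul_mem_left _ _ hi)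
      rw [h10, map_mul, map_mul] at h9
      have h11 : b2 * b1 * b ∉ P := by
        intro hb3
        rcases (inferInstance : P.IsPrime).mem_or_mem hb3 with h | h
        · exact ((inferInstance : P.IsPrime).mem_or_mem h).elim hb2 hb1
        · exact hb h
      have h12 := hunitA _ h11
      have h13 : x * algebraMap (S ⧸ I) (Localization.AtPrime p) (Ideal.Quotient.mk I (b2 * b1 * b)) ∈
          maximalIdeal (Localization.AtPrime p) ^ n := by
        rw [map_mul, map_mul, ← mul_assoc, mul_right_comm, hab, mul_comm]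
        exact h9
      exact (Ideal.mul_unit_mem_iff_mem _ h12).1 h13
    · intro hx
      have h3 : (maximalIdeal (Localization.AtPrime p)).map h ≤ maximalIdeal (T ⧸ I.map g) := by
        rw [Ideal.map_le_iff_le_comap]
        intro x hx
        rw [Ideal.mem_comap]
        obtain ⟨a, b, hb, hab⟩ := hrep x
        have h4 : h x * Ideal.Quotient.mk (I.map g) (g b) = Ideal.Quotient.mk (I.map g) (g a) := by
          have := congrArg h hab
          rw [map_mul, hh, hh, hh', hh'] at this
          exact this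
        have h5 : a ∈ P := by
          rw [← hmA, ← hab]
          exact Ideal.mul_mem_right _ _ hx
        have h6 : Ideal.Quotient.mk (I.map g) (g a) ∈ maximalIdeal (T ⧸ I.map g) := by
          rw [← hmap]
          exact Ideal.mem_map_of_mem _ ((h0 a).2 h5)
        rw [← h4] at h6
        exact (Ideal.mul_unit_mem_iff_mem _ (hunit b hb)).1 h6
      have h4 := Ideal.pow_right_mono h3 n
      rw [← Ideal.map_pow] at h4
      exact h4 (Ideal.mem_map_of_mem _ hx)
  have H2 : ∀ n t, ∃ x, t - h x ∈ maximalIdeal (T ⧸ I.map g) ^ n := by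
    intro n t
    obtain ⟨t, rfl⟩ := Ideal.Quotient.mk_surjective t
    obtain ⟨b, hb, a, hab⟩ := h2 n t
    obtain ⟨x, hx⟩ : ∃ x : Localization.AtPrime p,
        x * algebraMap (S ⧸ I) (Localization.AtPrime p) (Ideal.Quotient.mk I b) =
          algebraMap (S ⧸ I) (Localization.AtPrime p) (Ideal.Quotient.mk I a) := by
      obtain ⟨u, hu⟩ := hunitA b hb
      refine ⟨algebraMap (S ⧸ I) (Localization.AtPrime p) (Ideal.Quotient.mk I a) * ↑u⁻¹, ?_⟩
      rw [← hu, mul_assoc, Units.inv_mul, mul_one]
    refine ⟨x, ?_⟩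
    have h4 : h x * Ideal.Quotient.mk (I.map g) (g b) = Ideal.Quotient.mk (I.map g) (g a) := by
      have := congrArg h hx
      rw [map_mul, hh, hh, hh', hh'] at this
      exact this
    rw [← Ideal.mul_unit_mem_iff_mem _ (hunit b hb), sub_mul, h4, ← map_mul, ← map_sub, hpow]
    apply Ideal.mem_map_of_mem
    rw [mul_comm]
    exact hab
  obtain ⟨e, he⟩ := CmpG_equiv h H1 H2
  refine ⟨e, ?_⟩
  intro a
  rw [← he, hh, hh']

end Pool.Agent.DTZ
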