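import Mathlib.RingTheory.Polynomial.Resultant.Basic
import Mathlib.RingTheory.Polynomial.GaussLemma
import Mathlib.RingTheory.Derivation.Basic
import Mathlib.Algebra.DualNumber
import Mathlib.RingTheory.LocalRing.ResidueField.Basic
import Mathlib.FieldTheory.Separable

/-!
Module Disc: discriminants of monic polynomials: differences of roots divide the discriminant; translation invariance
in infinitesimal form; the discriminant of a squarefree polynomial over a factorial ring of characteristic zero is not
zero; over a local ring the discriminant of a polynomial which is congruent to `X ^ e`, `e ≥ 2`, is not a unit.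
-/

namespace Pool.Agent.DTZ

open Polynomial

variable {A : Type*} [CommRing A]

/-- The resultant of a polynomial and its derivative. -/
noncomputable def rsd (W : A[X]) : A := resultant W W.derivative W.natDegree (W.natDegree - 1)

theorem rsd_eq {W : A[X]} (hW : W.Monic) (h : 0 < W.natDegree) :
    rsd W = (-1) ^ (W.natDegree * (W.natDegree - 1) / 2) * W.discr := by
  rw [rsd, resultant_deriv (natDegree_pos_iff_degree_pos.1 h), hW.leadingCoeff, mul_one]

theorem discr_eq {W : A[X]} (hW : W.Monic) (h : 0 < W.natDegree) :
    W.discr = (-1) ^ (W.natDegree * (W.natDegree - 1) / 2) * rsd W := by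
  rw [rsd_eq hW h, ← mul_assoc, ← pow_add, ← two_mul, pow_mul]
  simp

theorem discr_assoc {W : A[X]} (hW : W.Monic) (h : 0 < W.natDegree) : Associated (rsd W) W.discr := by
  rw [discr_eq hW h]
  apply associated_unit_mul_right
  exact (isUnit_one.neg).pow _

/-- The discriminant is a combination of the polynomial and its derivative. -/
theorem rsd_mem {W : A[X]} (h : 0 < W.natDegree) : ∃ p q : A[X], W * p + W.derivative * q = C (rsd W) := by
  obtain ⟨p, q, _, _, h1⟩ := exists_mul_add_mul_eq_C_resultant (m := W.natDegree) (n := W.natDegree - 1)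
    W W.derivative le_rfl (natDegree_derivative_le W) (by left; omega)
  exact ⟨p, q, h1⟩

/-- Differences of roots divide the discriminant. -/
theorem Disc_root [IsDomain A] {W : A[X]} (hW : W.Monic) {a b : A} (hab : a ≠ b) (ha : W.eval a = 0)
    (hb : W.eval b = 0) : a - b ∣ W.discr := by
  have h0 : 0 < W.natDegree := by
    by_contra h
    have h1 : W = 1 := eq_one_of_monic_natDegree_zero hW (by omega)
    rw [h1, eval_one] at ha
    exact one_ne_zero ha
  obtain ⟨p, q, h⟩ := rsd_mem h0
  obtain ⟨V, hV⟩ := dvd_iff_isRoot.2 ha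
  have h1 : rsd W = V.eval a * q.eval a := by
    have h2 := congrArg (eval a) h
    rw [eval_add, eval_mul, eval_mul, ha, zero_mul, zero_add, eval_C] at h2
    rw [← h2]
    congr 1
    rw [hV, derivative_mul, eval_add, eval_mul, eval_mul]
    simp
  have h2 : V.eval b = 0 := by
    have h3 := hb
    rw [hV, eval_mul, eval_sub, eval_X, eval_C] at h3
    exact (mul_eq_zero.1 h3).resolve_left (sub_ne_zero.2 (Ne.symm hab))
  have h3 : a - b ∣ V.eval a := by
    have := sub_dvd_eval_sub a b V
    rwa [h2, sub_zero] at this
  rw [discr_eq hW h0, h1]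
  exact Dvd.dvd.mul_left (h3.mul_right _) _

/-- The ring homomorphism to the dual numbers given by a derivation. -/
noncomputable def Disc_hom (D : Derivation ℤ A A) : A →+* DualNumber A where
  toFun a := TrivSqZeroExt.inl a + TrivSqZeroExt.inr (D a)
  map_one' := by simp
  map_mul' a b := by
    ext
    · simp
    · simp [mul_comm]
  map_zero' := by simp
  map_add' a b := by
    ext
    · simp
    · simp

theorem Disc_hom_apply (D : Derivation ℤ A A) (a : A) :
    Disc_hom D a = TrivSqZeroExt.inl a + TrivSqZeroExt.inr (D a) := rfl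

theorem rsd_default {W : A[X]} (hW : W.Monic) : rsd W = resultant W W.derivative := by
  have h1 : W.derivative.natDegree ≤ W.natDegree - 1 := natDegree_derivative_le W
  obtain ⟨k, hk⟩ := Nat.exists_eq_add_of_le h1
  rw [rsd, hk, resultant_add_right_deg _ _ _ _ _ le_rfl, coeff_natDegree, hW.leadingCoeff, one_pow, one_mul]

theorem rsd_map {B : Type*} [CommRing B] [Nontrivial B] (φ : A →+* B) {W : A[X]} (hW : W.Monic) :
    rsd (W.map φ) = φ (rsd W) := by
  rw [rsd, rsd, derivative_map, hW.natDegree_map, resultant_map_map]

theorem derivative_taylor_comm (r : A) (W : A[X]) : (taylor r W).derivative = taylor r W.derivative := by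
  rw [taylor_apply, taylor_apply, derivative_comp]
  simp

theorem rsd_taylor {W : A[X]} (hW : W.Monic) (r : A) : rsd (taylor r W) = rsd W := by
  have h1 : (taylor r W).Monic := by
    rw [Monic, leadingCoeff_taylor]
    exact hW
  rw [rsd_default h1, rsd_default hW, derivative_taylor_comm, resultant_taylor]

theorem taylor_sq_zero (r : A) (hr : r ^ 2 = 0) (W : A[X]) : taylor r W = W + W.derivative * C r := by
  have h1 : taylor r W = (W.map C).eval (X + C r) := by
    rw [taylor_apply, comp, eval₂_eq_eval_map]
  rw [h1, eval_add_of_sq_eq_zero _ _ _ (by rw [← C_pow, hr, C_0]), derivative_map]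
  rw [← eval₂_eq_eval_map, ← eval₂_eq_eval_map, eval₂_C_X, eval₂_C_X]

/-- Infinitesimal translation invariance of the discriminant. -/
theorem Disc_der (D : Derivation ℤ A A) {W : A[X]} (hW : W.Monic) (c : A)
    (h : ∀ i, D (W.coeff i) + c * W.derivative.coeff i = 0) : D W.discr = 0 := by
  nontriviality A
  have hr : D (rsd W) = 0 := by
    have h1 : W.map (Disc_hom D) = taylor (TrivSqZeroExt.inr (-c)) (W.map (TrivSqZeroExt.inlHom A A)) := by
      rw [taylor_sq_zero]
      · ext i
        · simp [Disc_hom_apply, derivative_map]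
        · have h2 := h i
          have h3 : D (W.coeff i) = - (c * W.derivative.coeff i) := eq_neg_of_add_eq_zero_left h2
          simp [Disc_hom_apply, derivative_map, h3]
      · rw [pow_two, TrivSqZeroExt.inr_mul_inr]
    have h2 : Disc_hom D (rsd W) = TrivSqZeroExt.inlHom A A (rsd W) := by
      rw [← rsd_map _ hW, ← rsd_map _ hW, h1, rsd_taylor (hW.map _)]
    have h3 := congrArg TrivSqZeroExt.snd h2
    simpa [Disc_hom_apply] using h3
  by_cases h0 : 0 < W.natDegree
  · rw [discr_eq hW h0]
    rcases neg_one_pow_eq_or A (W.natDegree * (W.natDegree - 1) / 2) with h1 | h1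
    · rw [h1, one_mul, hr]
    · rw [h1, neg_one_mul, map_neg, hr, neg_zero]
  · have h1 : W = 1 := eq_one_of_monic_natDegree_zero hW (by omega)
    have h2 : W.discr = 1 := by
      rw [h1, ← C_1, discr_C]
    rw [h2]
    exact D.map_one_eq_zero

/-- The discriminant of `X ^ e` vanishes for `e ≥ 2`. -/
theorem rsd_X_pow [Nontrivial A] {e : ℕ} (he : 2 ≤ e) : rsd (X ^ e : A[X]) = 0 := by
  rw [rsd, natDegree_X_pow, derivative_X_pow, resultant_X_pow_left]
  · rw [coeff_zero_eq_eval_zero]
    have h1 : e - 1 ≠ 0 := by omega
    have h2 : e ≠ 0 := by omega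
    simp [h1, h2]
  · refine (natDegree_C_mul_le _ _).trans ?_
    exact natDegree_X_pow_le _

/-- Over a local ring: if `W` is congruent to `X ^ e`, `e ≥ 2`, the discriminant is not a unit. -/
theorem Disc_not_unit [IsLocalRing A] {W : A[X]} (hW : W.Monic)
    (hd : ∀ i < W.natDegree, W.coeff i ∈ IsLocalRing.maximalIdeal A) (he : 2 ≤ W.natDegree) :
    W.discr ∈ IsLocalRing.maximalIdeal A := by
  rw [discr_eq hW (by omega)]
  apply Ideal.mul_mem_left
  have hres : ∀ x : A, IsLocalRing.residue A x = 0 ↔ x ∈ IsLocalRing.maximalIdeal A :=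
    fun x => Ideal.Quotient.eq_zero_iff_mem
  rw [← hres, ← rsd_map _ hW]
  have h1 : W.map (IsLocalRing.residue A) = X ^ W.natDegree := by
    ext i
    rw [coeff_map, coeff_X_pow]
    split_ifs with h
    · rw [h, coeff_natDegree, hW.leadingCoeff, map_one]
    · rcases lt_or_gt_of_ne h with h2 | h2
      · exact (hres _).2 (hd i h2)
      · rw [coeff_eq_zero_of_natDegree_lt h2, map_zero]
  rw [h1, rsd_X_pow he]

end Pool.Agent.DTZ
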